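import Mathlib

set_option autoImplicit false

namespace Pool.Agent.Lib.MP_35c2eb_co

open Finset

section VC

variable {α β : Type} [Fintype α] [DecidableEq α] [Fintype β]

open Classical in
/-- The family of sign patterns of functions `g : β → ℕ` on the pairs `(p x, q x)`. -/
noncomputable def signFam (p q : α → β) : Finset (Finset α) :=
  univ.filter (fun S : Finset α => ∃ g : β → ℕ, ∀ x, x ∈ S ↔ g (p x) < g (q x))

lemma signFam_shatters_card (p q : α → β) (s : Finset α) (hs : (signFam p q).Shatters s) :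
    s.card ≤ Fintype.card β := by
  classical
  by_contra hcon
  push Not at hcon
  -- the vectors `e_(q x) - e_(p x)`
  let v : s → (β → ℝ) := fun x => Pi.single (q x) 1 - Pi.single (p x) 1
  have hdep : ¬ LinearIndependent ℝ v := by
    intro h
    have := h.fintype_card_le_finrank
    rw [Module.finrank_fintype_fun_eq_card, Fintype.card_coe] at this
    omega
  rw [Fintype.not_linearIndependent_iff] at hdep
  obtain ⟨c, hc, x0, hx0⟩ := hdep
  -- wlog some coefficient is positive
  have key : ∀ c : s → ℝ, ∑ i, c i • v i = 0 → (∃ x, 0 < c x) → False := by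
    intro c hc ⟨x0, hx0⟩
    obtain ⟨t, ht, hst⟩ := hs (t := (univ.filter (fun x : s => 0 < c x)).image Subtype.val) (by
      intro x hx
      rw [mem_image] at hx
      obtain ⟨y, -, rfl⟩ := hx
      exact y.2)
    rw [signFam, mem_filter] at ht
    obtain ⟨-, g, hg⟩ := ht
    have h1 : ∀ x : s, 0 < c x ↔ g (p x) < g (q x) := by
      intro x
      rw [← hg x]
      constructor
      · intro hx
        have : (x : α) ∈ s ∩ t := by
          rw [hst, mem_image]
          exact ⟨x, by simp [hx], rfl⟩
        exact (mem_inter.1 this).2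
      · intro hx
        have : (x : α) ∈ s ∩ t := mem_inter.2 ⟨x.2, hx⟩
        rw [hst, mem_image] at this
        obtain ⟨y, hy, hyx⟩ := this
        have : y = x := Subtype.ext hyx
        subst this
        simpa using hy
    have h2 : ∑ x : s, c x * ((g (q x) : ℝ) - g (p x)) = 0 := by
      have h3 := congrArg (fun w : β → ℝ => ∑ b, w b * (g b : ℝ)) hc
      simp only [Finset.sum_apply, Pi.smul_apply, smul_eq_mul, Pi.zero_apply, zero_mul,
        sum_const_zero] at h3
      rw [← h3]
      simp_rw [sum_mul]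
      rw [sum_comm]
      refine sum_congr rfl (fun x _ => ?_)
      simp only [v, Pi.sub_apply, Pi.single_apply]
      simp only [mul_sub, sub_mul, mul_ite, mul_one, mul_zero, ite_mul, zero_mul, sum_sub_distrib,
        sum_ite_eq', mem_univ, if_true]
    have h3 : ∀ x : s, 0 ≤ c x * ((g (q x) : ℝ) - g (p x)) := by
      intro x
      by_cases hx : 0 < c x
      · have := (h1 x).1 hx
        have h4 : (g (p x) : ℝ) < g (q x) := by exact_mod_cast this
        exact mul_nonneg hx.le (by linarith)
      · have h5 : ¬ g (p x) < g (q x) := fun h => hx ((h1 x).2 h)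
        have h4 : (g (q x) : ℝ) ≤ g (p x) := by exact_mod_cast not_lt.1 h5
        exact mul_nonneg_of_nonpos_of_nonpos (not_lt.1 hx) (by linarith)
    have h4 := (sum_eq_zero_iff_of_nonneg (fun x _ => h3 x)).1 h2 x0 (mem_univ _)
    have h5 : (g (p x0) : ℝ) < g (q x0) := by exact_mod_cast (h1 x0).1 hx0
    rcases mul_eq_zero.1 h4 with h6 | h6
    · linarith
    · linarith
  rcases lt_or_gt_of_ne hx0 with h | h
  · refine key (fun x => - c x) ?_ ⟨x0, by linarith⟩
    simp only [neg_smul, sum_neg_distrib, hc, neg_zero]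
  · exact key c hc ⟨x0, h⟩

lemma signFam_card (p q : α → β) :
    (signFam p q).card ≤ ∑ i ∈ Finset.range (Fintype.card β + 1), (Fintype.card α).choose i := by
  classical
  calc (signFam p q).card ≤ (signFam p q).shatterer.card := card_le_card_shatterer _
    _ ≤ ((Finset.range (Fintype.card β + 1)).biUnion
          (fun i => powersetCard i (univ : Finset α))).card := by
        apply card_le_card
        intro s hs
        rw [mem_shatterer] at hs
        have := signFam_shatters_card p q s hs
        rw [mem_biUnion]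
        exact ⟨s.card, mem_range.2 (by omega), mem_powersetCard.2 ⟨subset_univ _, rfl⟩⟩
    _ ≤ ∑ i ∈ Finset.range (Fintype.card β + 1), (powersetCard i (univ : Finset α)).card :=
        card_biUnion_le
    _ = _ := by
        refine sum_congr rfl (fun i _ => ?_)
        rw [card_powersetCard, card_univ]

end VC

/-- `∑_{i ≤ n} C(q n, i) ≤ (3 q)^n`. -/
lemma sum_choose_le (n q : ℕ) (hq : 1 ≤ q) :
    ∑ i ∈ Finset.range (n + 1), (q * n).choose i ≤ (3 * q) ^ n := by
  have hq0 : (0 : ℝ) < q := by exact_mod_cast hq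
  have h1 : ∑ i ∈ Finset.range (n + 1), ((q * n).choose i : ℝ) * ((1 / q : ℝ)) ^ n ≤
      (1 + 1 / q : ℝ) ^ (q * n) := by
    calc ∑ i ∈ Finset.range (n + 1), ((q * n).choose i : ℝ) * ((1 / q : ℝ)) ^ n
        ≤ ∑ i ∈ Finset.range (n + 1), ((q * n).choose i : ℝ) * ((1 / q : ℝ)) ^ i := by
          refine sum_le_sum (fun i hi => ?_)
          apply mul_le_mul_of_nonneg_left _ (by positivity)
          apply pow_le_pow_of_le_one (by positivity)
          · rw [div_le_one hq0]; exact_mod_cast hq
          · have := mem_range.1 hi; omega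
      _ ≤ ∑ i ∈ Finset.range (q * n + 1), ((q * n).choose i : ℝ) * ((1 / q : ℝ)) ^ i := by
          apply sum_le_sum_of_subset_of_nonneg
          · intro i hi
            rw [mem_range] at hi ⊢
            have : n ≤ q * n := Nat.le_mul_of_pos_left _ hq
            omega
          · intros; positivity
      _ = (1 + 1 / q : ℝ) ^ (q * n) := by
          rw [add_comm (1 : ℝ) (1 / q), add_pow]
          refine sum_congr rfl (fun i _ => ?_)
          rw [one_pow]; ring
  have h2 : (1 + 1 / q : ℝ) ^ (q * n) ≤ 3 ^ n := by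
    rw [pow_mul]
    apply pow_le_pow_left₀ (by positivity)
    calc (1 + 1 / q : ℝ) ^ q ≤ (Real.exp (1 / q)) ^ q := by
          apply pow_le_pow_left₀ (by positivity)
          have := Real.add_one_le_exp (1 / q : ℝ)
          linarith
      _ = Real.exp 1 := by
          rw [← Real.exp_nat_mul]
          congr 1
          field_simp
      _ ≤ 3 := by
          have := Real.exp_one_lt_d9
          linarith
  have h3 : (∑ i ∈ Finset.range (n + 1), ((q * n).choose i : ℝ)) * (1 / q : ℝ) ^ n ≤ 3 ^ n := by
    rw [sum_mul]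
    exact h1.trans h2
  have h4 : (∑ i ∈ Finset.range (n + 1), ((q * n).choose i : ℝ)) ≤ (3 * q) ^ n := by
    have h5 := mul_le_mul_of_nonneg_right h3 (show (0 : ℝ) ≤ (q : ℝ) ^ n by positivity)
    rw [mul_assoc, ← mul_pow, one_div, inv_mul_cancel₀ hq0.ne', one_pow, mul_one] at h5
    rwa [mul_pow]
  exact_mod_cast h4

/-- Counting: some choice `z` of one of the `k` neighbours of each `a` is not the strict top
of any of `d` orders. -/
lemma exists_choice {d k C : ℕ} (hk : k = 2 * (d + 1))
    (hC : (3 * (C * k ^ 2)) ^ d < 2 ^ C) (hC1 : 1 ≤ C)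
    {A β : Type} [Fintype A] [Fintype β] (hβ : 1 ≤ Fintype.card β)
    (hA : Fintype.card A = C * Fintype.card β) (N : A → Fin k → β) :
    ∃ z : A → Fin k, ¬ ∃ g : Fin d → β → ℕ, ∀ a, ∃ i, ∀ j, j ≠ z a →
      g i (N a j) < g i (N a (z a)) := by
  classical
  by_contra hcon
  push Not at hcon
  choose g ii hg using hcon
  let p : A × (Fin k × Fin k) → β := fun x => N x.1 x.2.1
  let q : A × (Fin k × Fin k) → β := fun x => N x.1 x.2.2
  let S : (A → Fin k) → Fin d → signFam p q := fun z i =>
    ⟨univ.filter (fun x => g z i (p x) < g z i (q x)), by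
      rw [signFam, mem_filter]
      exact ⟨mem_univ _, g z i, fun x => by simp⟩⟩
  have hinj : Function.Injective (fun z : A → Fin k => ((S z, ii z) :
      (Fin d → signFam p q) × (A → Fin d))) := by
    intro z z' hzz
    simp only [Prod.mk.injEq] at hzz
    obtain ⟨h1, h2⟩ := hzz
    funext a
    by_contra hne
    have h3 := hg z a (z' a) (fun h => hne h.symm)
    have h4 := hg z' a (z a) hne
    rw [← h2] at h4
    have h5 : (S z (ii z a)).1 = (S z' (ii z a)).1 := by rw [h1]
    have h6 : (a, (z a, z' a)) ∈ (S z' (ii z a)).1 := by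
      simp only [S, mem_filter, mem_univ, true_and, p, q]
      exact h4
    rw [← h5] at h6
    simp only [S, mem_filter, mem_univ, true_and, p, q] at h6
    exact absurd h3 (not_lt.2 h6.le)
  have hcard := Fintype.card_le_of_injective _ hinj
  rw [Fintype.card_prod, Fintype.card_fun, Fintype.card_fun, Fintype.card_fun, Fintype.card_fin,
    Fintype.card_fin, Fintype.card_coe] at hcard
  have hα : Fintype.card (A × (Fin k × Fin k)) = (C * k ^ 2) * Fintype.card β := by
    rw [Fintype.card_prod, Fintype.card_prod, Fintype.card_fin, hA]; ring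
  have hfam : (signFam p q).card ≤ (3 * (C * k ^ 2)) ^ Fintype.card β := by
    refine (signFam_card p q).trans ?_
    rw [hα]
    apply sum_choose_le
    have : 1 ≤ k ^ 2 := Nat.one_le_pow _ _ (by omega)
    nlinarith
  have h1 : 2 ^ Fintype.card A * (d + 1) ^ Fintype.card A ≤
      ((3 * (C * k ^ 2)) ^ Fintype.card β) ^ d * (d + 1) ^ Fintype.card A := by
    calc 2 ^ Fintype.card A * (d + 1) ^ Fintype.card A = k ^ Fintype.card A := by
          rw [hk, mul_pow]
      _ ≤ _ := hcard
      _ ≤ _ := by
          apply Nat.mul_le_mul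
          · exact Nat.pow_le_pow_left hfam _
          · exact Nat.pow_le_pow_left (by omega) _
  have h2 : 2 ^ Fintype.card A ≤ ((3 * (C * k ^ 2)) ^ Fintype.card β) ^ d :=
    Nat.le_of_mul_le_mul_right h1 (by positivity)
  have h3 : ((3 * (C * k ^ 2)) ^ Fintype.card β) ^ d = ((3 * (C * k ^ 2)) ^ d) ^ Fintype.card β := by
    rw [← pow_mul, ← pow_mul, mul_comm (Fintype.card β) d]
  rw [h3, hA, pow_mul] at h2
  have h4 : ((3 * (C * k ^ 2)) ^ d) ^ Fintype.card β < (2 ^ C) ^ Fintype.card β :=
    Nat.pow_lt_pow_left hC (by omega)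
  omega

/-- Exponentials beat polynomials. -/
lemma exists_C (d : ℕ) : ∃ C : ℕ, 1 ≤ C ∧ (3 * (C * (2 * (d + 1)) ^ 2)) ^ d < 2 ^ C := by
  have h := tendsto_pow_const_div_const_pow_of_one_lt d (r := (2 : ℝ)) (by norm_num)
  have h1 : Filter.Tendsto (fun n : ℕ => (3 * (2 * ((d : ℝ) + 1)) ^ 2) ^ d * ((n : ℝ) ^ d / 2 ^ n))
      Filter.atTop (nhds ((3 * (2 * ((d : ℝ) + 1)) ^ 2) ^ d * 0)) := h.const_mul _
  rw [mul_zero] at h1
  have h2 := (h1.eventually (gt_mem_nhds (show (0 : ℝ) < 1 by norm_num))).and
    (Filter.eventually_ge_atTop 1)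
  obtain ⟨C, hC, hC1⟩ := h2.exists
  refine ⟨C, hC1, ?_⟩
  have h3 : ((3 * (C * (2 * (d + 1)) ^ 2)) ^ d : ℝ) < 2 ^ C := by
    have h4 : (3 * (2 * ((d : ℝ) + 1)) ^ 2) ^ d * ((C : ℝ) ^ d / 2 ^ C) =
      ((3 * (C * (2 * (d + 1)) ^ 2)) ^ d : ℝ) / 2 ^ C := by
      rw [← mul_div_assoc, ← mul_pow]
      congr 2
      ring
    rw [h4, div_lt_one (by positivity)] at hC
    exact hC
  exact_mod_cast h3

end Pool.Agent.Lib.MP_35c2eb_co
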