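import Pool.Agent.Lib.MP_35c2eb_co.Count

set_option autoImplicit false

namespace Pool.Agent.Lib.MP_35c2eb_co

open Finset Classical

variable {W : Type} [Fintype W]

/-- A graph without a nonempty set of minimum inner degree above `c` is sparse. -/
lemma sparse_of_no_dense (H : SimpleGraph W) (c : ℕ) (s : Finset W)
    (hs : ∀ t ⊆ s, t.Nonempty → ∃ v ∈ t, (t.filter (fun u => H.Adj v u)).card ≤ c) :
    ∑ v ∈ s, (s.filter (fun u => H.Adj v u)).card ≤ 2 * c * s.card := by
  induction s using Finset.strongInduction with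
  | H s ih =>
    rcases s.eq_empty_or_nonempty with rfl | hne
    · simp
    · obtain ⟨v, hv, hvc⟩ := hs s (Subset.refl _) hne
      have h1 := ih (s.erase v) (erase_ssubset hv)
        (fun t ht htn => hs t (ht.trans (erase_subset _ _)) htn)
      have h2 : ∑ u ∈ s, (s.filter (fun w => H.Adj u w)).card =
          (s.filter (fun u => H.Adj v u)).card +
            ∑ u ∈ s.erase v, (s.filter (fun w => H.Adj u w)).card := by
        exact (add_sum_erase s (fun u => (s.filter (fun w => H.Adj u w)).card) hv).symm
      have h3 : ∀ u ∈ s.erase v, (s.filter (fun w => H.Adj u w)).card =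
          ((s.erase v).filter (fun w => H.Adj u w)).card + (if H.Adj v u then 1 else 0) := by
        intro u hu
        rw [filter_erase]
        by_cases h : H.Adj v u
        · rw [if_pos h]
          rw [card_erase_of_mem (by simp [hv, h.symm])]
          have : 0 < (s.filter (fun w => H.Adj u w)).card :=
            card_pos.2 ⟨v, by simp [hv, h.symm]⟩
          omega
        · have h' : ¬ H.Adj u v := fun h' => h h'.symm
          rw [if_neg h, erase_eq_of_notMem (by simp [h'])]
          rfl
      rw [h2, sum_congr rfl h3, sum_add_distrib]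
      have h4 : ∑ u ∈ s.erase v, (if H.Adj v u then 1 else 0) =
          (s.filter (fun u => H.Adj v u)).card := by
        rw [← card_filter, filter_erase, erase_eq_of_notMem]
        simp
      rw [h4]
      have h5 : (s.erase v).card = s.card - 1 := card_erase_of_mem hv
      have h6 : 0 < s.card := card_pos.2 hne
      rw [h5] at h1
      obtain ⟨m, hm⟩ : ∃ m, s.card = m + 1 := ⟨s.card - 1, by omega⟩
      rw [hm] at h1 ⊢
      have h7 : m + 1 - 1 = m := by omega
      rw [h7] at h1
      nlinarith

lemma exists_dense (H : SimpleGraph W) (c : ℕ) (hc : c * Fintype.card W < Nat.card H.edgeSet) :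
    ∃ s : Finset W, s.Nonempty ∧ ∀ v ∈ s, c < (s.filter (fun u => H.Adj v u)).card := by
  by_contra hcon
  push Not at hcon
  have h1 := sparse_of_no_dense H c univ (fun t _ ht => hcon t ht)
  have h2 : ∑ v ∈ (univ : Finset W), ((univ : Finset W).filter (fun u => H.Adj v u)).card =
      2 * H.edgeFinset.card := by
    rw [← SimpleGraph.sum_degrees_eq_twice_card_edges]
    refine sum_congr rfl (fun v _ => ?_)
    rw [← SimpleGraph.card_neighborFinset_eq_degree]
    congr 1
    ext u
    simp
  rw [h2, card_univ] at h1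
  have h3 : Nat.card H.edgeSet = H.edgeFinset.card := by
    rw [Nat.card_eq_fintype_card, SimpleGraph.edgeFinset, Set.toFinset_card]
  rw [h3] at hc
  nlinarith

/-- In a set of large minimum inner degree there are a nonempty `B` and an `A` disjoint from
`B`, of size at least `C * |B|`, with every vertex of `A` having `k` neighbours in `B`. -/
lemma exists_AB (H : SimpleGraph W) (k C : ℕ) (hk : 1 ≤ k) (s : Finset W) (hs : s.Nonempty)
    (hdeg : ∀ v ∈ s, 4 * (4 * k * (C + 1)) + k < (s.filter (fun u => H.Adj v u)).card) :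
    ∃ A B : Finset W, Disjoint A B ∧ B.Nonempty ∧ C * B.card ≤ A.card ∧
      ∀ a ∈ A, k ≤ (B.filter (fun u => H.Adj a u)).card := by
  set l : ℕ := 4 * k * (C + 1) with hl
  have hl0 : 0 < l := by positivity
  let Φ : Finset W → ℤ := fun B =>
    ∑ v ∈ s, (min k (B.filter (fun u => H.Adj v u)).card : ℕ) - l * B.card
  obtain ⟨B, hB, hmax⟩ := exists_max_image s.powerset Φ ⟨∅, empty_mem_powerset _⟩
  rw [mem_powerset] at hB
  set n := s.card with hn
  have hn1 : 1 ≤ n := card_pos.2 hs
  -- (i)
  have h1 : l * B.card ≤ k * n := by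
    have h2 := hmax ∅ (empty_mem_powerset _)
    have h3 : Φ ∅ = 0 := by simp [Φ]
    rw [h3] at h2
    have h4 : (∑ v ∈ s, ((min k (B.filter (fun u => H.Adj v u)).card : ℕ) : ℤ)) ≤
        ((k * n : ℕ) : ℤ) := by
      calc (∑ v ∈ s, ((min k (B.filter (fun u => H.Adj v u)).card : ℕ) : ℤ))
          ≤ ∑ v ∈ s, (k : ℤ) := sum_le_sum (fun v _ => by exact_mod_cast min_le_left _ _)
        _ = _ := by rw [sum_const, ← hn]; push_cast; simp [mul_comm]
    have h5 : (l * B.card : ℤ) ≤ ((k * n : ℕ) : ℤ) := by
      simp only [Φ] at h2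
      push_cast at h2 h4 ⊢
      linarith
    exact_mod_cast h5
  set U := s.filter (fun v => (B.filter (fun u => H.Adj v u)).card < k) with hU
  -- (ii)
  have h2 : ∀ w ∈ s \ B, (U.filter (fun v => H.Adj w v)).card ≤ l := by
    intro w hw
    rw [mem_sdiff] at hw
    have h3 := hmax (insert w B) (by rw [mem_powerset]; exact insert_subset hw.1 hB)
    have h4 : ∀ v ∈ s, (min k (B.filter (fun u => H.Adj v u)).card : ℕ) +
        (if v ∈ U.filter (fun v => H.Adj w v) then 1 else 0) ≤
        min k ((insert w B).filter (fun u => H.Adj v u)).card := by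
      intro v hv
      rw [filter_insert]
      by_cases hvw : H.Adj v w
      · rw [if_pos hvw, card_insert_of_notMem (by simp [hw.2])]
        split_ifs with h5
        · rw [mem_filter, hU, mem_filter] at h5
          omega
        · omega
      · have hvw' : ¬ H.Adj w v := fun h => hvw h.symm
        rw [if_neg hvw, if_neg (by simp [hvw'])]
        simp
    have h5 := sum_le_sum h4
    rw [sum_add_distrib] at h5
    have h6 : ∑ v ∈ s, (if v ∈ U.filter (fun v => H.Adj w v) then 1 else 0) =
        (U.filter (fun v => H.Adj w v)).card := by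
      rw [← card_filter]
      congr 1
      ext v
      simp only [mem_filter, hU]
      tauto
    rw [h6] at h5
    simp only [Φ] at h3
    rw [card_insert_of_notMem hw.2] at h3
    have h7 : (∑ v ∈ s, ((min k (B.filter (fun u => H.Adj v u)).card : ℕ) : ℤ)) +
        ((U.filter (fun v => H.Adj w v)).card : ℤ) ≤
        ∑ v ∈ s, ((min k ((insert w B).filter (fun u => H.Adj v u)).card : ℕ) : ℤ) := by
      exact_mod_cast h5
    have h8 : ((U.filter (fun v => H.Adj w v)).card : ℤ) ≤ l := by
      push_cast at h3 h7 ⊢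
      linarith
    exact_mod_cast h8
  -- (iii)
  have h3 : 4 * U.card ≤ n := by
    have h4 : ∑ v ∈ U, ((s \ B).filter (fun w => H.Adj v w)).card =
        ∑ w ∈ s \ B, (U.filter (fun v => H.Adj w v)).card := by
      simp_rw [card_filter]
      rw [sum_comm]
      refine sum_congr rfl (fun w _ => sum_congr rfl (fun v _ => ?_))
      simp only [H.adj_comm]
    have h5 : ∀ v ∈ U, 4 * l ≤ ((s \ B).filter (fun w => H.Adj v w)).card := by
      intro v hv
      rw [hU, mem_filter] at hv
      have h6 := hdeg v hv.1
      have h7 : (s.filter (fun u => H.Adj v u)).card ≤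
          ((s \ B).filter (fun w => H.Adj v w)).card + (B.filter (fun w => H.Adj v w)).card := by
        rw [← card_union_of_disjoint]
        · apply card_le_card
          intro u hu
          rw [mem_filter] at hu
          rw [mem_union, mem_filter, mem_filter, mem_sdiff]
          tauto
        · rw [disjoint_left]
          intro u hu hu'
          rw [mem_filter, mem_sdiff] at hu
          rw [mem_filter] at hu'
          exact hu.1.2 hu'.1
      omega
    have h6 : U.card * (4 * l) ≤ ∑ v ∈ U, ((s \ B).filter (fun w => H.Adj v w)).card := by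
      rw [← smul_eq_mul, ← sum_const]
      exact sum_le_sum h5
    have h7 : ∑ w ∈ s \ B, (U.filter (fun v => H.Adj w v)).card ≤ n * l := by
      calc _ ≤ ∑ w ∈ s \ B, l := sum_le_sum h2
        _ = (s \ B).card * l := by rw [sum_const, smul_eq_mul]
        _ ≤ n * l := Nat.mul_le_mul_right _ (card_le_card sdiff_subset)
    rw [h4] at h6
    have h8 : (4 * U.card) * l ≤ n * l := by
      calc (4 * U.card) * l = U.card * (4 * l) := by ring
        _ ≤ _ := h6.trans h7
    exact Nat.le_of_mul_le_mul_right h8 hl0
  have h4 : 4 * (C + 1) * B.card ≤ n := by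
    have h5 : k * (4 * (C + 1) * B.card) ≤ k * n := by
      calc k * (4 * (C + 1) * B.card) = l * B.card := by rw [hl]; ring
        _ ≤ _ := h1
    exact Nat.le_of_mul_le_mul_left h5 (by omega)
  refine ⟨s \ (U ∪ B), B, ?_, ?_, ?_, ?_⟩
  · rw [disjoint_left]
    intro x hx hx'
    rw [mem_sdiff, mem_union] at hx
    exact hx.2 (Or.inr hx')
  · by_contra hcon
    rw [not_nonempty_iff_eq_empty] at hcon
    have : U = s := by
      rw [hU, filter_eq_self]
      intro v _
      rw [hcon]
      simp only [filter_empty, card_empty]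
      omega
    rw [this] at h3
    omega
  · have h5 : n ≤ (s \ (U ∪ B)).card + (U.card + B.card) := by
      calc n ≤ ((s \ (U ∪ B)) ∪ (U ∪ B)).card := by
            apply card_le_card
            intro x hx
            rw [mem_union, mem_sdiff]
            tauto
        _ ≤ (s \ (U ∪ B)).card + (U ∪ B).card := card_union_le _ _
        _ ≤ _ := by
            have := card_union_le U B
            omega
    have h6 : 4 * (C + 1) * B.card = 4 * (C * B.card) + 4 * B.card := by ring
    omega
  · intro a ha
    rw [mem_sdiff, mem_union, hU, mem_filter] at ha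
    by_contra hcon
    apply ha.2
    left
    exact ⟨ha.1, by omega⟩

/-- A dense graph contains a bipartite subgraph whose height 2 poset has large dimension. -/
lemma core (d : ℕ) : ∃ c : ℕ, ∀ (W : Type) [Fintype W] (H : SimpleGraph W),
    c * Fintype.card W < Nat.card H.edgeSet →
    ∃ (A B : Finset W) (M : W → Finset W), Disjoint A B ∧
      (∀ a ∈ A, M a ⊆ B ∧ ∀ b ∈ M a, H.Adj a b) ∧
      ¬ ∃ g : Fin d → W → ℕ, ∀ a ∈ A, ∀ b ∈ B, (b ∈ M a ↔ ∀ i, g i b ≤ g i a) := by
  obtain ⟨C, hC1, hC⟩ := exists_C d
  obtain ⟨k, hk⟩ : ∃ k, k = 2 * (d + 1) := ⟨_, rfl⟩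
  rw [← hk] at hC
  refine ⟨4 * (4 * k * (C + 1)) + k, ?_⟩
  intro W _ H hc
  obtain ⟨s, hs, hdeg⟩ := exists_dense H _ hc
  obtain ⟨A0, B, hd, hB, hA0, hk'⟩ := exists_AB H k C (by omega) s hs hdeg
  obtain ⟨A, hA, hAc⟩ := exists_subset_card_eq hA0
  have hN : ∀ a : A, ∃ N : Fin k → B, Function.Injective N ∧ ∀ j, H.Adj a (N j) := by
    intro a
    obtain ⟨t, ht, htc⟩ := exists_subset_card_eq (hk' a (hA a.2))
    let e := (t.equivFinOfCardEq htc).symm
    have hmem : ∀ j, ((e j : t) : W) ∈ B ∧ H.Adj a (e j) := by
      intro j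
      have := ht (e j).2
      rwa [mem_filter] at this
    refine ⟨fun j => ⟨(e j : W), (hmem j).1⟩, ?_, fun j => (hmem j).2⟩
    intro j j' hjj
    have h1 : ((e j : t) : W) = (e j' : t) := by simpa using hjj
    exact e.injective (Subtype.ext h1)
  choose N hNinj hNadj using hN
  obtain ⟨z, hz⟩ := exists_choice (A := A) (β := B) hk hC hC1
    (by rw [Fintype.card_coe]; exact card_pos.2 hB)
    (by rw [Fintype.card_coe, Fintype.card_coe]; exact hAc) N
  refine ⟨A, B, fun a => if ha : a ∈ A then
    (univ.filter (fun j => j ≠ z ⟨a, ha⟩)).image (fun j => (N ⟨a, ha⟩ j : W)) else ∅, ?_, ?_, ?_⟩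
  · exact disjoint_of_subset_left hA hd
  · intro a ha
    simp only [dif_pos ha]
    constructor
    · intro b hb
      rw [mem_image] at hb
      obtain ⟨j, -, rfl⟩ := hb
      exact (N ⟨a, ha⟩ j).2
    · intro b hb
      rw [mem_image] at hb
      obtain ⟨j, -, rfl⟩ := hb
      exact hNadj ⟨a, ha⟩ j
  · rintro ⟨g, hg⟩
    apply hz
    refine ⟨fun i b => g i b, ?_⟩
    intro a
    have h1 := hg a a.2 (N a (z a)) (N a (z a)).2
    simp only [dif_pos a.2] at h1
    have h2 : ¬ ((N a (z a) : W) ∈ (univ.filter (fun j => j ≠ z ⟨a, a.2⟩)).image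
        (fun j => (N ⟨a, a.2⟩ j : W))) := by
      intro h
      rw [mem_image] at h
      obtain ⟨j, hj, hjz⟩ := h
      rw [mem_filter] at hj
      exact hj.2 (hNinj a (Subtype.ext hjz))
    rw [h1] at h2
    push Not at h2
    obtain ⟨i, hi⟩ := h2
    refine ⟨i, fun j hj => ?_⟩
    have h3 := hg a a.2 (N a j) (N a j).2
    simp only [dif_pos a.2] at h3
    have h4 := h3.1 (by
      rw [mem_image]
      exact ⟨j, by simpa using hj, rfl⟩) i
    exact lt_of_le_of_lt h4 hi

end Pool.Agent.Lib.MP_35c2eb_co
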