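import Mathlib

set_option autoImplicit false

namespace Pool.Agent.Lib.MP_35c2eb_co

open Classical

variable {V W : Type}

/-- Given a shallow minor model, there are level functions on the branch sets. -/
lemma exists_levels (G : SimpleGraph V) (r : ℕ) (B : W → Set V)
    (hr : ∀ w, ∃ v ∈ B w, ∀ u ∈ B w, ∃ p : G.Walk v u,
            p.length ≤ r ∧ ∀ x ∈ p.support, x ∈ B w) :
    ∃ (ctr : W → V) (lev : W → V → ℕ), (∀ w, ctr w ∈ B w) ∧
      (∀ w, ∀ u ∈ B w, lev w u ≤ r) ∧
      (∀ w, ∀ u ∈ B w, u = ctr w ∨ ∃ u' ∈ B w, G.Adj u u' ∧ lev w u' < lev w u) := by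
  choose ctr hctr hwalk using hr
  have hex : ∀ w, ∀ u ∈ B w, ∃ n, ∃ p : G.Walk u (ctr w), p.length ≤ n ∧
      ∀ x ∈ p.support, x ∈ B w := by
    intro w u hu
    obtain ⟨p, hp, hps⟩ := hwalk w u hu
    refine ⟨r, p.reverse, by rwa [SimpleGraph.Walk.length_reverse], ?_⟩
    intro x hx
    rw [SimpleGraph.Walk.support_reverse, List.mem_reverse] at hx
    exact hps x hx
  let lev : W → V → ℕ := fun w u => if hu : u ∈ B w then Nat.find (hex w u hu) else 0
  refine ⟨ctr, lev, hctr, ?_, ?_⟩
  · intro w u hu
    simp only [lev, dif_pos hu]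
    apply Nat.find_min'
    obtain ⟨p, hp, hps⟩ := hwalk w u hu
    refine ⟨p.reverse, by rwa [SimpleGraph.Walk.length_reverse], ?_⟩
    intro x hx
    rw [SimpleGraph.Walk.support_reverse, List.mem_reverse] at hx
    exact hps x hx
  · intro w u hu
    obtain ⟨p, hp, hps⟩ := Nat.find_spec (hex w u hu)
    have hl : lev w u = Nat.find (hex w u hu) := by simp only [lev, dif_pos hu]
    rw [← hl] at hp
    cases p with
    | nil => exact Or.inl rfl
    | @cons _ u' _ h q =>
      right
      have hu' : u' ∈ B w := hps u' (by simp)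
      refine ⟨u', hu', h, ?_⟩
      rw [SimpleGraph.Walk.length_cons] at hp
      have h1 : lev w u' ≤ q.length := by
        simp only [lev, dif_pos hu']
        apply Nat.find_min'
        exact ⟨q, le_rfl, fun x hx => hps x (by simp [hx])⟩
      omega

/-- The poset obtained from a bipartite pattern in a shallow minor model. -/
lemma exists_poset [Fintype V] (G : SimpleGraph V) (r : ℕ) (Br : W → Set V)
    (hdisj : ∀ w w', w ≠ w' → Disjoint (Br w) (Br w'))
    (hr : ∀ w, ∃ v ∈ Br w, ∀ u ∈ Br w, ∃ p : G.Walk v u,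
            p.length ≤ r ∧ ∀ x ∈ p.support, x ∈ Br w)
    (A B : Finset W) (M : W → Finset W) (hAB : Disjoint A B) (hM : ∀ a ∈ A, M a ⊆ B)
    (hE : ∀ a ∈ A, ∀ b ∈ M a, ∃ u ∈ Br b, ∃ u' ∈ Br a, G.Adj u u') :
    ∃ (P : Type) (_ : Fintype P) (_ : PartialOrder P) (ι : P → V),
      Function.Injective ι ∧ (∀ x y : P, x ⋖ y → G.Adj (ι x) (ι y)) ∧
      (∀ s : Finset P, IsChain (· ≤ ·) (s : Set P) → s.card ≤ 2 * r + 2) ∧
      ∃ c : W → Option P, ∀ a ∈ A, ∀ b ∈ B, ∃ x y : P, c a = some x ∧ c b = some y ∧
        (b ∈ M a ↔ y ≤ x) := by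
  obtain ⟨ctr, lev, hctr, hlev, hpar⟩ := exists_levels G r Br hr
  let P : Type := {u : V // ∃ w, (w ∈ A ∨ w ∈ B) ∧ u ∈ Br w}
  let idx : P → W := fun u => Classical.choose u.2
  have hidx : ∀ u : P, (idx u ∈ A ∨ idx u ∈ B) ∧ (u : V) ∈ Br (idx u) :=
    fun u => Classical.choose_spec u.2
  have hidx' : ∀ (u : P) (w : W), (u : V) ∈ Br w → idx u = w := by
    intro u w hu
    by_contra hne
    exact Set.disjoint_left.1 (hdisj _ _ hne) (hidx u).2 hu
  let l : P → ℕ := fun u => lev (idx u) u
  have hl : ∀ u, l u ≤ r := fun u => hlev _ _ (hidx u).2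
  let R : P → P → Prop := fun x y => G.Adj (x : V) (y : V) ∧
    ((idx x = idx y ∧ idx x ∈ B ∧ l x < l y) ∨ (idx x = idx y ∧ idx x ∈ A ∧ l y < l x) ∨
      (idx y ∈ A ∧ idx x ∈ M (idx y)))
  let ht : P → ℕ := fun u => if idx u ∈ B then l u else 2 * r + 1 - l u
  have hAB' : ∀ w, w ∈ A → w ∉ B := fun w h1 h2 => Finset.disjoint_left.1 hAB h1 h2
  have hRht : ∀ x y, R x y → ht x < ht y := by
    intro x y hxy
    have hx := hl x
    have hy := hl y
    obtain ⟨-, h | h | h⟩ := hxy
    · obtain ⟨h1, h2, h3⟩ := h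
      simp only [ht, ← h1, if_pos h2]
      exact h3
    · obtain ⟨h1, h2, h3⟩ := h
      simp only [ht, ← h1, if_neg (hAB' _ h2)]
      omega
    · obtain ⟨h1, h2⟩ := h
      have h3 := hM _ h1 h2
      simp only [ht, if_pos h3, if_neg (hAB' _ h1)]
      omega
  have hle_ht : ∀ x y, Relation.ReflTransGen R x y → x = y ∨ ht x < ht y := by
    intro x y h
    induction h with
    | refl => exact Or.inl rfl
    | tail _ h2 ih =>
      have := hRht _ _ h2
      rcases ih with rfl | ih
      · exact Or.inr this
      · exact Or.inr (ih.trans this)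
  let po : PartialOrder P :=
    { le := Relation.ReflTransGen R
      le_refl := fun x => Relation.ReflTransGen.refl
      le_trans := fun x y z h1 h2 => h1.trans h2
      le_antisymm := by
        intro x y h1 h2
        rcases hle_ht x y h1 with h | h
        · exact h
        · rcases hle_ht y x h2 with h' | h'
          · exact h'.symm
          · omega }
  have hle : ∀ x y : P, x ≤ y ↔ Relation.ReflTransGen R x y := fun x y => Iff.rfl
  have hctrP : ∀ w, w ∈ A ∨ w ∈ B → ∃ w', (w' ∈ A ∨ w' ∈ B) ∧ ctr w ∈ Br w' :=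
    fun w hw => ⟨w, hw, hctr w⟩
  -- everything in a lower branch set is above its centre
  have hlow : ∀ w, ∀ hw : w ∈ B, ∀ n, ∀ u : P, idx u = w → l u = n →
      Relation.ReflTransGen R (⟨ctr w, hctrP w (Or.inr hw)⟩ : P) u := by
    intro w hw n
    induction n using Nat.strong_induction_on with
    | _ n ih =>
      intro u hu hn
      have hub : (u : V) ∈ Br w := hu ▸ (hidx u).2
      rcases hpar w u hub with h | ⟨u', hu', hadj, hlt⟩
      · have : u = (⟨ctr w, hctrP w (Or.inr hw)⟩ : P) := Subtype.ext h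
        rw [this]
      · let y : P := ⟨u', w, Or.inr hw, hu'⟩
        have hy : idx y = w := hidx' y w hu'
        have hly : l y < l u := by
          simp only [l, hy, hu]
          exact hlt
        refine (ih (l y) (hn ▸ hly) y hy rfl).tail ?_
        exact ⟨hadj.symm, Or.inl ⟨by rw [hy, hu], by rw [hy]; exact hw, hly⟩⟩
  have hupp : ∀ w, ∀ hw : w ∈ A, ∀ n, ∀ u : P, idx u = w → l u = n →
      Relation.ReflTransGen R u (⟨ctr w, hctrP w (Or.inl hw)⟩ : P) := by
    intro w hw n
    induction n using Nat.strong_induction_on with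
    | _ n ih =>
      intro u hu hn
      have hub : (u : V) ∈ Br w := hu ▸ (hidx u).2
      rcases hpar w u hub with h | ⟨u', hu', hadj, hlt⟩
      · have : u = (⟨ctr w, hctrP w (Or.inl hw)⟩ : P) := Subtype.ext h
        rw [this]
      · let y : P := ⟨u', w, Or.inl hw, hu'⟩
        have hy : idx y = w := hidx' y w hu'
        have hly : l y < l u := by
          simp only [l, hy, hu]
          exact hlt
        refine Relation.ReflTransGen.head ?_ (ih (l y) (hn ▸ hly) y hy rfl)
        exact ⟨hadj, Or.inr (Or.inl ⟨by rw [hy, hu], by rw [hu]; exact hw, hly⟩)⟩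
  refine ⟨P, inferInstance, po, Subtype.val, Subtype.val_injective, ?_, ?_, ?_⟩
  · -- covers are edges
    intro x y hxy
    have h1 : Relation.ReflTransGen R x y := hxy.le
    rcases Relation.ReflTransGen.cases_head h1 with h | ⟨z, hz, hzy⟩
    · exact absurd h hxy.ne
    · have hxz : x < z := by
        refine lt_of_le_of_ne (Relation.ReflTransGen.single hz) ?_
        intro h
        have := hRht x z hz
        rw [h] at this
        omega
      have hzy' : z ≤ y := hzy
      rcases hzy'.eq_or_lt with h | h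
      · rw [← h]; exact hz.1
      · exact absurd h (hxy.2 hxz)
  · -- height
    intro s hs
    have h1 : s.card ≤ (Finset.range (2 * r + 2)).card := by
      apply Finset.card_le_card_of_injOn ht
      · intro x _
        have := hl x
        simp only [Finset.coe_range, Set.mem_Iio, ht]
        split_ifs <;> omega
      · intro x hx y hy hxy
        by_contra hne
        rcases hs hx hy hne with h | h
        · rcases hle_ht x y h with h' | h'
          · exact hne h'
          · omega
        · rcases hle_ht y x h with h' | h'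
          · exact hne h'.symm
          · omega
    simpa using h1
  · refine ⟨fun w => if hw : w ∈ A ∨ w ∈ B then some ⟨ctr w, hctrP w hw⟩ else none, ?_⟩
    intro a ha b hb
    refine ⟨⟨ctr a, hctrP a (Or.inl ha)⟩, ⟨ctr b, hctrP b (Or.inr hb)⟩, ?_, ?_, ?_⟩
    · simp only [dif_pos (Or.inl ha : a ∈ A ∨ a ∈ B)]
    · simp only [dif_pos (Or.inr hb : b ∈ A ∨ b ∈ B)]
    · constructor
      · intro hbM
        obtain ⟨u, hu, u', hu', hadj⟩ := hE a ha b hbM
        let x : P := ⟨u, b, Or.inr hb, hu⟩
        let y : P := ⟨u', a, Or.inl ha, hu'⟩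
        have hx : idx x = b := hidx' x b hu
        have hy : idx y = a := hidx' y a hu'
        have h1 := hlow b hb _ x hx rfl
        have h2 := hupp a ha _ y hy rfl
        have h3 : R x y := ⟨hadj, Or.inr (Or.inr ⟨by rw [hy]; exact ha, by rw [hx, hy]; exact hbM⟩)⟩
        exact (h1.tail h3).trans h2
      · intro h
        have key : ∀ x : P, Relation.ReflTransGen R (⟨ctr b, hctrP b (Or.inr hb)⟩ : P) x →
            idx x = b ∨ (idx x ∈ A ∧ b ∈ M (idx x)) := by
          intro x hx
          induction hx with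
          | refl => exact Or.inl (hidx' _ b (hctr b))
          | @tail y z _ h2 ih =>
            obtain ⟨-, h3 | h3 | h3⟩ := h2
            · rcases ih with ih | ih
              · left; rw [← h3.1, ih]
              · exact absurd h3.2.1 (hAB' _ ih.1)
            · rcases ih with ih | ih
              · left; rw [← h3.1, ih]
              · right; rw [← h3.1]; exact ih
            · rcases ih with ih | ih
              · right; rw [← ih]; exact h3
              · exact absurd (hM _ h3.1 h3.2) (hAB' _ ih.1)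
        have h1 := key _ h
        have h2 : idx (⟨ctr a, hctrP a (Or.inl ha)⟩ : P) = a := hidx' _ a (hctr a)
        rw [h2] at h1
        rcases h1 with h1 | h1
        · exact absurd (h1 ▸ hb) (hAB' a ha)
        · exact h1.2

end Pool.Agent.Lib.MP_35c2eb_co
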